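import Pool.Agent.Y574.CL.Path

/-!
# Open sets of finite area which every nonconstant path of lines meets in infinite length

Every measurable plane set `F` of finite area is contained in an open set `E` with `|E \ F| < ε`
such that every nonconstant path of lines contains a line `L` with `H^1 (L ∩ E) = ∞`. In particular
Croft's second question has a negative answer also for open sets, and the counterexamples are dense
among all measurable sets of finite area (see `no_continuous_choice` below).
-/

set_option autoImplicit false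

open MeasureTheory Set
open scoped ENNReal

namespace Pool.Agent.Results.MP_ec7c5f_an.OpenSets

open Pool.Agent.Results.MP_ec7c5f_an.ContinuousLines

/-- **Every measurable plane set `F` of finite area is contained in an open set `E` of finite area
with `|E \ F| < ε`, such that every nonconstant continuous family of lines `L t`, `α < t < β`,
contains a line that meets `E` in infinite length.** -/
theorem result : ∀ F : Set Plane, NullMeasurableSet F → volume F < ∞ → ∀ ε : ℝ, 0 < ε →
    ∃ E : Set Plane, IsOpen E ∧ F ⊆ E ∧ volume (E \ F) < ENNReal.ofReal ε ∧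
      0 < volume E ∧ volume E < ∞ ∧
      ∀ (α β : ℝ) (L : ℝ → LineSpace), ContinuousOn L (Ioo α β) →
        (∃ s ∈ Ioo α β, ∃ t ∈ Ioo α β, L s ≠ L t) →
          ∃ t ∈ Ioo α β, μH[1] (pointSet (L t) ∩ E) = ∞ := by
  intro F hF hF' ε hε
  exact Pool.Agent.Y574.CL.exists_open F hF hF' (ENNReal.ofReal ε) (ENNReal.ofReal_pos.2 hε).ne'

/-- Croft's second question for open sets: every measurable `F` of finite area is contained in an
open set `E` of finite area with `|E \ F| < ε` for which there is no continuous choice of lines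
`L t`, `0 < t < δ`, with `H^1 (L t ∩ E) = t`. -/
theorem no_continuous_choice : ∀ F : Set Plane, NullMeasurableSet F → volume F < ∞ →
    ∀ ε : ℝ, 0 < ε → ∃ E : Set Plane, IsOpen E ∧ F ⊆ E ∧ volume (E \ F) < ENNReal.ofReal ε ∧
      0 < volume E ∧ volume E < ∞ ∧
      ¬ ∃ δ : ℝ, 0 < δ ∧ ∃ L : ℝ → LineSpace, ContinuousOn L (Ioo 0 δ) ∧
        ∀ t ∈ Ioo 0 δ, μH[1] (pointSet (L t) ∩ E) = ENNReal.ofReal t := by
  intro F hF hF' ε hε
  obtain ⟨E, h1, h2, h3, h4, h5, h6⟩ := result F hF hF' ε hε
  refine ⟨E, h1, h2, h3, h4, h5, ?_⟩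
  rintro ⟨δ, hδ, L, hL, hval⟩
  have ha : δ / 3 ∈ Ioo 0 δ := ⟨by linarith, by linarith⟩
  have hb : δ / 2 ∈ Ioo 0 δ := ⟨by linarith, by linarith⟩
  obtain ⟨t, ht, hinf⟩ := h6 0 δ L hL ⟨δ / 3, ha, δ / 2, hb, fun h => by
    have e1 := hval _ ha
    have e2 := hval _ hb
    rw [h, e2, ENNReal.ofReal_eq_ofReal_iff (by linarith) (by linarith)] at e1
    linarith⟩
  rw [hval t ht] at hinf
  exact ENNReal.ofReal_ne_top hinf

end Pool.Agent.Results.MP_ec7c5f_an.OpenSets
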